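import Pool.Agent.H557R3.RouteFinal

set_option autoImplicit false

open Pool.Agent.H557R3.Route MeasureTheory

namespace Pool.Agent.Results.MP_7e32c9_lc.NoOptimalOnlineProtocol

/-- For all `ε, α > 0` and every constant `c`, for all large `n` there is a network such that every
randomised online protocol (which may know the network and `n`) has a simple, even leveled, path
collection of size `n` with `max {C, D} < (log n) ^ (1 + ε)` on which, with probability more than
`n ^ (-α)`, not all packets are delivered within `c (C + D)` steps. -/
theorem result (ε α c : ℝ) (hε : 0 < ε) (hα : 0 < α) :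
    ∃ n₀ : ℕ, ∀ n : ℕ, n₀ ≤ n → ∃ G : Network,
      ∀ (Ω : Type) [MeasurableSpace Ω] (μ : Measure Ω) [IsProbabilityMeasure μ]
        (A : Ω → Protocol G n),
      ∃ P : PathCollection G n, P.Simple ∧ P.Leveled ∧
        (max P.congestion P.dilation : ℝ) < Real.log n ^ (1 + ε) ∧
        ENNReal.ofReal ((n : ℝ) ^ (-α)) <
          μ {ω | ∀ T : ℕ, (T : ℝ) ≤ c * (P.congestion + P.dilation) →
            ¬ Delivered (A ω) P T} :=
  main ε α c hε hα

end Pool.Agent.Results.MP_7e32c9_lc.NoOptimalOnlineProtocol
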